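import Mathlib

/-!
# A rational realization of the trilateral-free configuration (40_4)

The symplectic generalized quadrangle `W(3)` and its dual are realized by points and straight lines
of the projective plane over every field of characteristic zero, in particular over the reals.
-/

set_option autoImplicit false

open scoped LinearAlgebra.Projectivization

namespace Pool.Agent.Results.MP_6466f5_co.GeometricRealization

/-- The points of `W(3)`: the points of the projective space `PG(3,3)`. -/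
abbrev WPoint : Type := ℙ (ZMod 3) (Fin 4 → ZMod 3)

/-- The nondegenerate alternating form of the symplectic polarity. -/
def sympl (u v : Fin 4 → ZMod 3) : ZMod 3 := u 0 * v 1 - u 1 * v 0 + (u 2 * v 3 - u 3 * v 2)

/-- The lines of `W(3)`: the lines of `PG(3,3)`, i.e. the subspaces of dimension two, that are
totally isotropic. -/
def WLine : Type :=
  {L : Submodule (ZMod 3) (Fin 4 → ZMod 3) //
    Module.finrank (ZMod 3) L = 2 ∧ ∀ u ∈ L, ∀ v ∈ L, sympl u v = 0}

/-- Incidence of `W(3)`: the point lies on the line. -/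
def WInc (p : WPoint) (L : WLine) : Prop := p.submodule ≤ L.1

/-- The points of the projective plane over `K`. -/
abbrev PlanePoint (K : Type) [Field K] : Type := ℙ K (Fin 3 → K)

/-- The straight lines of the projective plane over `K`: the subspaces of dimension two. -/
def PlaneLine (K : Type) [Field K] : Type :=
  {ℓ : Submodule K (Fin 3 → K) // Module.finrank K ℓ = 2}

/-- The incidence structure with point set `P`, line set `Λ` and incidence `I` has a geometric
realization in the projective plane over `K`: injective maps from its points to the points and from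
its lines to the straight lines of the plane, such that the image of a point lies on the image of a
line if and only if the two are incident. -/
def Realizable (K : Type) [Field K] {P Λ : Type} (I : P → Λ → Prop) : Prop :=
  ∃ (f : P → PlanePoint K) (g : Λ → PlaneLine K), Function.Injective f ∧ Function.Injective g ∧
    ∀ p l, (f p).submodule ≤ (g l).1 ↔ I p l

/-! ### Tables -/

/-- normalized representatives of the points of `PG(3,3)` -/
def repT : List (ℕ × ℕ × ℕ × ℕ) :=
  [(0, 0, 0, 1), (0, 0, 1, 0), (0, 0, 1, 1), (0, 0, 1, 2), (0, 1, 0, 0), (0, 1, 0, 1),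
   (0, 1, 0, 2), (0, 1, 1, 0), (0, 1, 1, 1), (0, 1, 1, 2), (0, 1, 2, 0), (0, 1, 2, 1),
   (0, 1, 2, 2), (1, 0, 0, 0), (1, 0, 0, 1), (1, 0, 0, 2), (1, 0, 1, 0), (1, 0, 1, 1),
   (1, 0, 1, 2), (1, 0, 2, 0), (1, 0, 2, 1), (1, 0, 2, 2), (1, 1, 0, 0), (1, 1, 0, 1),
   (1, 1, 0, 2), (1, 1, 1, 0), (1, 1, 1, 1), (1, 1, 1, 2), (1, 1, 2, 0), (1, 1, 2, 1),
   (1, 1, 2, 2), (1, 2, 0, 0), (1, 2, 0, 1), (1, 2, 0, 2), (1, 2, 1, 0), (1, 2, 1, 1),
   (1, 2, 1, 2), (1, 2, 2, 0), (1, 2, 2, 1), (1, 2, 2, 2)]

/-- the totally isotropic lines, each given by its four points -/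
def lineT : List (ℕ × ℕ × ℕ × ℕ) :=
  [(0, 4, 5, 6), (0, 13, 14, 15), (0, 22, 23, 24), (0, 31, 32, 33), (1, 4, 7, 10),
   (1, 13, 16, 19), (1, 22, 25, 28), (1, 31, 34, 37), (2, 4, 8, 12), (2, 13, 17, 21),
   (2, 22, 26, 30), (2, 31, 35, 39), (3, 4, 9, 11), (3, 13, 18, 20), (3, 22, 27, 29),
   (3, 31, 36, 38), (5, 19, 29, 39), (5, 20, 30, 37), (5, 21, 28, 38), (6, 16, 27, 35),
   (6, 17, 25, 36), (6, 18, 26, 34), (7, 14, 26, 38), (7, 17, 29, 32), (7, 20, 23, 35),
   (8, 14, 27, 37), (8, 18, 28, 32), (8, 19, 23, 36), (9, 14, 25, 39), (9, 16, 30, 32),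
   (9, 21, 23, 34), (10, 15, 30, 36), (10, 18, 24, 39), (10, 21, 27, 33), (11, 15, 28, 35),
   (11, 17, 24, 37), (11, 19, 26, 33), (12, 15, 29, 34), (12, 16, 24, 38), (12, 20, 25, 33)]

/-- the points of the plane, in homogeneous integer coordinates -/
def ptT : List (ℤ × ℤ × ℤ) :=
  [(6, -8, 7), (1, 12, 1), (3, -3, 2), (10, -3, 34), (25, -18, 19), (7, 6, -2), (33, 2, 8),
   (22, -1, 17), (1, 0, 1), (1, -1, -1), (4, -5, 3), (28, -21, 16), (4, -3, 3), (4, 6, 1),
   (9, 5, 5), (25, -39, 31), (1, -2, 0), (11, 3, 5), (2, 5, -3), (17, -6, 2), (2, 1, 4),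
   (2, 0, 1), (3, 11, -22), (4, -2, -1), (5, -5, 3), (0, 1, 1), (21, -28, 26), (6, 5, 2),
   (1, 6, -5), (11, 12, -4), (3, 4, -10), (6, -3, 2), (0, 1, -1), (6, -5, 4), (31, -3, 11),
   (10, -3, 2), (11, -6, -4), (20, 15, 8), (13, -6, 12), (1, 0, 0)]

/-- the lines of the plane, in homogeneous integer coordinates -/
def lnT : List (ℤ × ℤ × ℤ) :=
  [(26, -61, -92), (25, -11, -34), (11, 17, 10), (1, 6, 6), (41, 1, -53), (2, 1, -14),
   (11, -1, 1), (27, 4, -75), (3, 1, -3), (3, -1, -6), (22, 36, 21), (0, 2, 3), (37, 44, -7),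
   (23, -14, -8), (44, -46, -17), (24, 46, -3), (0, 1, 3), (26, -32, -5), (6, -11, -12),
   (4, 2, -17), (2, 11, -11), (2, -5, -7), (90, -43, -119), (8, -11, -11), (7, 18, -8),
   (5, -4, -5), (1, -1, -1), (2, 5, -2), (0, 1, -1), (2, 1, 1), (1, 3, -2), (38, 49, 31),
   (0, 3, 5), (5, -2, -10), (3, 52, 63), (17, -4, -35), (2, 8, 7), (24, -49, -81), (6, 3, -5),
   (3, 2, -2)]


/-- the table of incidences -/
def inc (i l : Fin 40) : Bool :=
  let q := lineT.getD l (0, 0, 0, 0)
  (q.1 == i.1) || (q.2.1 == i.1) || (q.2.2.1 == i.1) || (q.2.2.2 == i.1)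

def ptV (i : Fin 40) : ℤ × ℤ × ℤ := ptT.getD i (0, 0, 0)

def lnV (i : Fin 40) : ℤ × ℤ × ℤ := lnT.getD i (0, 0, 0)

def dotV (a b : ℤ × ℤ × ℤ) : ℤ := a.1 * b.1 + a.2.1 * b.2.1 + a.2.2 * b.2.2

theorem dotV_iff : ∀ i l : Fin 40, dotV (ptV i) (lnV l) = 0 ↔ inc i l = true := by
  decide +kernel

theorem sepP : ∀ i j : Fin 40, (∀ k, inc i k = inc j k) → i = j := by
  decide +kernel

theorem sepL : ∀ i j : Fin 40, (∀ k, inc k i = inc k j) → i = j := by
  decide +kernel

theorem ptV_ne : ∀ i, ptV i ≠ 0 := by decide +kernel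

theorem lnV_ne : ∀ i, lnV i ≠ 0 := by decide +kernel

/-! ### Plane geometry over a field of characteristic zero -/

section plane

variable {K : Type} [Field K] [CharZero K]

/-- an integer vector, as a vector over `K` -/
def vec (K : Type) [Field K] (a : ℤ × ℤ × ℤ) : Fin 3 → K := ![(a.1 : K), (a.2.1 : K), (a.2.2 : K)]

theorem vec_ne {a : ℤ × ℤ × ℤ} (h : a ≠ 0) : vec K a ≠ 0 := by
  intro h0
  apply h
  have e0 := congrFun h0 0
  have e1 := congrFun h0 1
  have e2 := congrFun h0 2
  simp [vec] at e0 e1 e2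
  exact Prod.ext e0 (Prod.ext e1 e2)

/-- the linear form with integer coefficients `a` -/
def form (K : Type) [Field K] (a : ℤ × ℤ × ℤ) : Module.Dual K (Fin 3 → K) :=
  (a.1 : K) • LinearMap.proj 0 + (a.2.1 : K) • LinearMap.proj 1 + (a.2.2 : K) • LinearMap.proj 2

omit [CharZero K] in
theorem form_apply (a : ℤ × ℤ × ℤ) (x : Fin 3 → K) :
    form K a x = a.1 * x 0 + a.2.1 * x 1 + a.2.2 * x 2 := by
  simp [form]

omit [CharZero K] in
theorem form_vec (a b : ℤ × ℤ × ℤ) : form K a (vec K b) = (dotV b a : ℤ) := by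
  rw [form_apply]
  simp only [vec, dotV, Matrix.cons_val_zero, Matrix.cons_val_one, Matrix.cons_val]
  push_cast
  ring

theorem form_ne {a : ℤ × ℤ × ℤ} (h : a ≠ 0) : form K a ≠ 0 := by
  intro h0
  apply h
  have e0 := LinearMap.congr_fun h0 ![1, 0, 0]
  have e1 := LinearMap.congr_fun h0 ![0, 1, 0]
  have e2 := LinearMap.congr_fun h0 ![0, 0, 1]
  rw [form_apply] at e0 e1 e2
  simp at e0 e1 e2
  exact Prod.ext e0 (Prod.ext e1 e2)

theorem finrank_ker_form {a : ℤ × ℤ × ℤ} (h : a ≠ 0) :
    Module.finrank K (LinearMap.ker (form K a)) = 2 := by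
  have h1 := Module.Dual.finrank_ker_add_one_of_ne_zero (form_ne (K := K) h)
  rw [Module.finrank_fin_fun] at h1
  omega

theorem realizable_of_tables {P Λ : Type} (I : P → Λ → Prop) (cP : P → Fin 40)
    (hP : Function.Injective cP) (cL : Λ → Fin 40) (hL : Function.Injective cL)
    (V W : Fin 40 → ℤ × ℤ × ℤ) (t : Fin 40 → Fin 40 → Bool) (hV : ∀ i, V i ≠ 0)
    (hW : ∀ i, W i ≠ 0) (hI : ∀ p l, I p l ↔ t (cP p) (cL l) = true)
    (hd : ∀ i l, dotV (V i) (W l) = 0 ↔ t i l = true)
    (h1 : ∀ i j : Fin 40, (∀ k, t i k = t j k) → i = j)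
    (h2 : ∀ i j : Fin 40, (∀ k, t k i = t k j) → i = j) : Realizable K I := by
  have key : ∀ i l, (Projectivization.mk K (vec K (V i)) (vec_ne (hV i))).submodule ≤
      LinearMap.ker (form K (W l)) ↔ t i l = true := by
    intro i l
    rw [Projectivization.submodule_mk, Submodule.span_singleton_le_iff_mem, LinearMap.mem_ker,
      form_vec, Int.cast_eq_zero, hd]
  refine ⟨fun p => Projectivization.mk K (vec K (V (cP p))) (vec_ne (hV _)),
    fun l => ⟨LinearMap.ker (form K (W (cL l))), finrank_ker_form (hW _)⟩, ?_, ?_, ?_⟩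
  · intro p q h
    apply hP
    apply h1
    intro k
    have e1 := key (cP p) k
    have e2 := key (cP q) k
    simp only at h
    rw [h, e2] at e1
    exact (Bool.eq_iff_iff.2 e1).symm
  · intro l m h
    apply hL
    apply h2
    intro k
    have h' : LinearMap.ker (form K (W (cL l))) = LinearMap.ker (form K (W (cL m))) :=
      congrArg Subtype.val h
    have e1 := key k (cL l)
    have e2 := key k (cL m)
    rw [h', e2] at e1
    exact (Bool.eq_iff_iff.2 e1).symm
  · intro p l
    rw [hI]
    exact key _ _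

end plane

/-! ### The quadrangle `W(3)` -/

/-- the normalized vector number `i` -/
def rep (i : Fin 40) : Fin 4 → ZMod 3 :=
  let q := repT.getD i (0, 0, 0, 0)
  ![(q.1 : ZMod 3), (q.2.1 : ZMod 3), (q.2.2.1 : ZMod 3), (q.2.2.2 : ZMod 3)]

theorem rep_ne : ∀ i, rep i ≠ 0 := by decide +kernel

theorem exists_rep_vec : ∀ a b c d : ZMod 3, ![a, b, c, d] ≠ 0 →
    ∃ i : Fin 40, ∃ s : ZMod 3, s ≠ 0 ∧ s • rep i = ![a, b, c, d] := by
  decide +kernel

theorem exists_rep (v : Fin 4 → ZMod 3) (hv : v ≠ 0) :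
    ∃ i : Fin 40, ∃ s : ZMod 3, s ≠ 0 ∧ s • rep i = v := by
  have e : ![v 0, v 1, v 2, v 3] = v := by
    ext i
    fin_cases i <;> rfl
  have h := exists_rep_vec (v 0) (v 1) (v 2) (v 3)
  rw [e] at h
  exact h hv

theorem exists_code (p : WPoint) : ∃ i : Fin 40, p = Projectivization.mk (ZMod 3) (rep i) (rep_ne i) := by
  induction p using Projectivization.ind with
  | h v hv =>
    obtain ⟨i, s, hs, h⟩ := exists_rep v hv
    refine ⟨i, ?_⟩
    rw [Projectivization.mk_eq_mk_iff']
    exact ⟨s, h⟩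

/-- the number of a point -/
noncomputable def code (p : WPoint) : Fin 40 := (exists_code p).choose

theorem code_spec (p : WPoint) : p = Projectivization.mk (ZMod 3) (rep (code p)) (rep_ne _) :=
  (exists_code p).choose_spec

theorem code_injective : Function.Injective code := by
  intro p q h
  have h1 := code_spec p
  have h2 := code_spec q
  rw [h1, h2]
  congr 2

/-- the first two points of a line -/
def fstP (l : Fin 40) : Fin 40 := Fin.ofNat 40 (lineT.getD l (0, 0, 0, 0)).1

def sndP (l : Fin 40) : Fin 40 := Fin.ofNat 40 (lineT.getD l (0, 0, 0, 0)).2.1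

/-- the totally isotropic line number `l` -/
def lineSub (l : Fin 40) : Submodule (ZMod 3) (Fin 4 → ZMod 3) :=
  Submodule.span (ZMod 3) {rep (fstP l), rep (sndP l)}

theorem mem_table : ∀ l i : Fin 40,
    (∃ x y : ZMod 3, x • rep (fstP l) + y • rep (sndP l) = rep i) ↔ inc i l = true := by
  decide +kernel

theorem mem_lineSub (l i : Fin 40) : rep i ∈ lineSub l ↔ inc i l = true := by
  rw [lineSub, Submodule.mem_span_pair, mem_table]

theorem join_table : ∀ i j : Fin 40, i ≠ j → sympl (rep i) (rep j) = 0 →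
    ∃ l, inc i l = true ∧ inc j l = true := by
  decide +kernel

theorem finrank_lineSub_le (l : Fin 40) : Module.finrank (ZMod 3) (lineSub l) ≤ 2 := by
  have h := finrank_range_le_card (R := ZMod 3) ![rep (fstP l), rep (sndP l)]
  rw [Set.finrank, Matrix.range_cons, Matrix.range_cons, Matrix.range_empty, Set.union_empty,
    Set.singleton_union, Fintype.card_fin] at h
  exact h

theorem exists_lineCode (L : WLine) : ∃ l : Fin 40, L.1 = lineSub l := by
  obtain ⟨L, hL, hiso⟩ := L
  let b := Module.finBasisOfFinrankEq (ZMod 3) L hL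
  have hu : ((b 0 : L) : Fin 4 → ZMod 3) ≠ 0 := fun h => b.ne_zero 0 (Subtype.ext h)
  have hv : ((b 1 : L) : Fin 4 → ZMod 3) ≠ 0 := fun h => b.ne_zero 1 (Subtype.ext h)
  obtain ⟨i, s, hs, hi⟩ := exists_rep _ hu
  obtain ⟨j, t, ht, hj⟩ := exists_rep _ hv
  have hiL : rep i ∈ L := by
    have h : rep i = s⁻¹ • ((b 0 : L) : Fin 4 → ZMod 3) := by
      rw [← hi, smul_smul, inv_mul_cancel₀ hs, one_smul]
    rw [h]
    exact L.smul_mem _ (b 0).2
  have hjL : rep j ∈ L := by
    have h : rep j = t⁻¹ • ((b 1 : L) : Fin 4 → ZMod 3) := by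
      rw [← hj, smul_smul, inv_mul_cancel₀ ht, one_smul]
    rw [h]
    exact L.smul_mem _ (b 1).2
  have hij : i ≠ j := by
    rintro rfl
    have hli := Fintype.linearIndependent_iff.1 b.linearIndependent ![t, -s] (by
      rw [Fin.sum_univ_two]
      apply Subtype.ext
      simp only [Matrix.cons_val_zero, Matrix.cons_val_one, Submodule.coe_add,
        Submodule.coe_smul, Submodule.coe_zero]
      rw [← hi, ← hj, smul_smul, smul_smul, ← add_smul, mul_comm t s, neg_mul, add_neg_cancel,
        zero_smul]) 0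
    exact ht (by simpa using hli)
  obtain ⟨l, h1, h2⟩ := join_table i j hij (hiso _ hiL _ hjL)
  refine ⟨l, ?_⟩
  have hle : L ≤ lineSub l := by
    intro x hx
    have hsum := b.sum_repr ⟨x, hx⟩
    rw [Fin.sum_univ_two] at hsum
    have hx' : x = (b.repr ⟨x, hx⟩ 0) • ((b 0 : L) : Fin 4 → ZMod 3) +
        (b.repr ⟨x, hx⟩ 1) • ((b 1 : L) : Fin 4 → ZMod 3) := by
      have := congrArg Subtype.val hsum
      simpa using this.symm
    rw [hx', ← hi, ← hj]
    exact (lineSub l).add_mem ((lineSub l).smul_mem _ ((lineSub l).smul_mem _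
      ((mem_lineSub l i).2 h1))) ((lineSub l).smul_mem _ ((lineSub l).smul_mem _
      ((mem_lineSub l j).2 h2)))
  exact Submodule.eq_of_le_of_finrank_le hle (by rw [hL]; exact finrank_lineSub_le l)

/-- the number of a line -/
noncomputable def lineCode (L : WLine) : Fin 40 := (exists_lineCode L).choose

theorem lineCode_spec (L : WLine) : L.1 = lineSub (lineCode L) := (exists_lineCode L).choose_spec

theorem lineCode_injective : Function.Injective lineCode := by
  intro L M h
  apply Subtype.ext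
  rw [lineCode_spec L, lineCode_spec M, h]

theorem WInc_iff (p : WPoint) (L : WLine) : WInc p L ↔ inc (code p) (lineCode L) = true := by
  rw [← mem_lineSub, ← lineCode_spec]
  unfold WInc
  conv_lhs => rw [code_spec p]
  rw [Projectivization.submodule_mk, Submodule.span_singleton_le_iff_mem]

/-- The generalized quadrangle `W(3)` and its dual have geometric realizations in the projective
plane over every field of characteristic zero. -/
theorem result (K : Type) [Field K] [CharZero K] :
    Realizable K WInc ∧ Realizable K (fun (L : WLine) (p : WPoint) => WInc p L) := by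
  constructor
  · exact realizable_of_tables WInc code code_injective lineCode lineCode_injective ptV lnV inc
      ptV_ne lnV_ne WInc_iff dotV_iff sepP sepL
  · refine realizable_of_tables _ lineCode lineCode_injective code code_injective lnV ptV
      (fun i j => inc j i) lnV_ne ptV_ne (fun L p => WInc_iff p L) ?_ sepL sepP
    intro i l
    rw [← dotV_iff]
    have : dotV (lnV i) (ptV l) = dotV (ptV l) (lnV i) := by
      unfold dotV
      ring
    rw [this]

end Pool.Agent.Results.MP_6466f5_co.GeometricRealization
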